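import Mathlib

/-!
# Mean squares over translates of multiplicatively flat families of residue classes (helper337)
-/

set_option autoImplicit false

namespace Run7.h337.MC

open Finset

/-- All non-principal characters modulo q have sums at most eta |s| over the family. -/
def MulFlat {ι : Type} (q : ℕ) [NeZero q] (η : ℝ) (s : Finset ι) (y : ι → (ZMod q)ˣ) : Prop :=
  ∀ χ : DirichletCharacter ℂ q, χ ≠ 1 → ‖∑ i ∈ s, χ (y i : ZMod q)‖ ≤ η * s.card

variable {q : ℕ} [NeZero q]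

lemma star_char (χ : DirichletCharacter ℂ q) (b : (ZMod q)ˣ) :
    (starRingEnd ℂ) (χ (b : ZMod q)) = χ ((b⁻¹ : (ZMod q)ˣ) : ZMod q) := by
  have h1 : (starRingEnd ℂ) (χ (b : ZMod q)) = χ⁻¹ (b : ZMod q) := MulChar.star_apply' χ b
  rw [h1, MulChar.inv_apply, Ring.inverse_unit]

lemma mchar_orth (a b : (ZMod q)ˣ) :
    ∑ χ : DirichletCharacter ℂ q, χ (a : ZMod q) * (starRingEnd ℂ) (χ (b : ZMod q)) =
    if a = b then (Nat.totient q : ℂ) else 0 := by
  have h1 := DirichletCharacter.sum_char_inv_mul_char_eq (R := ℂ) (n := q) b.isUnit (a : ZMod q)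
  have h2 : ∀ χ : DirichletCharacter ℂ q, χ (a : ZMod q) * (starRingEnd ℂ) (χ (b : ZMod q)) =
      χ ((b : ZMod q)⁻¹) * χ (a : ZMod q) := by
    intro χ
    rw [star_char, ZMod.inv_coe_unit, mul_comm]
  simp only [h2]
  rw [h1]
  by_cases hab : a = b
  · rw [if_pos hab, if_pos (by rw [hab])]
  · rw [if_neg hab, if_neg]
    intro h3
    exact hab (Units.ext h3).symm

lemma sum_units_char (χ : DirichletCharacter ℂ q) (hχ : χ ≠ 1) : ∑ m : (ZMod q)ˣ, χ (m : ZMod q) = 0 := by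
  obtain ⟨b, hb⟩ := MulChar.ne_one_iff.1 hχ
  have h1 : ∑ m : (ZMod q)ˣ, χ (m : ZMod q) = χ (b : ZMod q) * ∑ m : (ZMod q)ˣ, χ (m : ZMod q) := by
    rw [mul_sum, ← Equiv.sum_comp (Equiv.mulLeft b)]
    refine sum_congr rfl fun m _ => ?_
    rw [Equiv.coe_mulLeft, Units.val_mul, map_mul]
  have h2 : (1 - χ (b : ZMod q)) * ∑ m : (ZMod q)ˣ, χ (m : ZMod q) = 0 := by
    rw [sub_mul, one_mul, ← h1, sub_self]
  rcases mul_eq_zero.1 h2 with h3 | h3
  · exact absurd (sub_eq_zero.1 h3).symm hb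
  · exact h3

lemma mparseval (g : (ZMod q)ˣ → ℂ) :
    ∑ χ : DirichletCharacter ℂ q, ‖∑ x, g x * χ (x : ZMod q)‖ ^ 2 = Nat.totient q * ∑ x, ‖g x‖ ^ 2 := by
  have h1 : ∀ z : ℂ, ((‖z‖ ^ 2 : ℝ) : ℂ) = z * (starRingEnd ℂ) z := fun z => by
    rw [Complex.mul_conj, Complex.normSq_eq_norm_sq]
  have h2 : ((∑ χ : DirichletCharacter ℂ q, ‖∑ x, g x * χ (x : ZMod q)‖ ^ 2 : ℝ) : ℂ) =
      ((Nat.totient q * ∑ x, ‖g x‖ ^ 2 : ℝ) : ℂ) := by
    push_cast
    calc ∑ χ : DirichletCharacter ℂ q, ((‖∑ x, g x * χ (x : ZMod q)‖ : ℝ) : ℂ) ^ 2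
        = ∑ χ : DirichletCharacter ℂ q, ∑ x, ∑ y, (g x * (starRingEnd ℂ) (g y)) *
            (χ (x : ZMod q) * (starRingEnd ℂ) (χ ((y : (ZMod q)ˣ) : ZMod q))) := by
          refine sum_congr rfl fun χ _ => ?_
          have h3 := h1 (∑ x, g x * χ (x : ZMod q))
          push_cast at h3
          rw [h3, map_sum, sum_mul_sum]
          refine sum_congr rfl fun x _ => sum_congr rfl fun y _ => ?_
          rw [(starRingEnd ℂ).map_mul]
          ring
      _ = ∑ x, ∑ y, (g x * (starRingEnd ℂ) (g y)) * ∑ χ : DirichletCharacter ℂ q,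
            (χ (x : ZMod q) * (starRingEnd ℂ) (χ ((y : (ZMod q)ˣ) : ZMod q))) := by
          rw [sum_comm]
          refine sum_congr rfl fun x _ => ?_
          rw [sum_comm]
          refine sum_congr rfl fun y _ => ?_
          rw [mul_sum]
      _ = ∑ x, (g x * (starRingEnd ℂ) (g x)) * Nat.totient q := by
          refine sum_congr rfl fun x _ => ?_
          simp only [mchar_orth, mul_ite, mul_zero]
          rw [sum_ite_eq univ x]
          simp
      _ = Nat.totient q * ∑ x, ((‖g x‖ : ℝ) : ℂ) ^ 2 := by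
          rw [mul_sum]
          refine sum_congr rfl fun x _ => ?_
          have h3 := h1 (g x)
          push_cast at h3
          rw [h3]
          ring
  exact_mod_cast h2

/-- The mean square over m of the sum of w(m y_i) minus its mean. -/
theorem mconv_l2 {ι : Type} (η : ℝ) (s : Finset ι) (y : ι → (ZMod q)ˣ) (hf : MulFlat q η s y)
    (w : (ZMod q)ˣ → ℝ) :
    ∑ m : (ZMod q)ˣ, (∑ i ∈ s, w (m * y i) - s.card * (∑ a, w a) / Nat.totient q) ^ 2 ≤
      η ^ 2 * s.card ^ 2 * ∑ a, w a ^ 2 := by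
  classical
  have hq0 : (0 : ℝ) < Nat.totient q := by exact_mod_cast Nat.totient_pos.2 (Nat.pos_of_ne_zero (NeZero.ne q))
  have hqc : (Nat.totient q : ℂ) ≠ 0 := by exact_mod_cast hq0.ne'
  obtain ⟨g, hg⟩ : ∃ g : (ZMod q)ˣ → ℂ, g = fun m => ((∑ i ∈ s, w (m * y i) -
      s.card * (∑ a, w a) / Nat.totient q : ℝ) : ℂ) := ⟨_, rfl⟩
  have hnorm : ∀ m, ‖g m‖ ^ 2 = (∑ i ∈ s, w (m * y i) - s.card * (∑ a, w a) / Nat.totient q) ^ 2 := by
    intro m
    rw [hg, Complex.norm_real, Real.norm_eq_abs, sq_abs]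
  have hcard : Fintype.card (ZMod q)ˣ = Nat.totient q := ZMod.card_units_eq_totient q
  have hconv : ∀ χ : DirichletCharacter ℂ q, ∑ m : (ZMod q)ˣ, ((∑ i ∈ s, w (m * y i) : ℝ) : ℂ) * χ (m : ZMod q) =
      (∑ i ∈ s, χ (((y i)⁻¹ : (ZMod q)ˣ) : ZMod q)) * ∑ a : (ZMod q)ˣ, (w a : ℂ) * χ (a : ZMod q) := by
    intro χ
    push_cast
    simp only [sum_mul]
    rw [sum_comm]
    refine sum_congr rfl fun i _ => ?_
    rw [mul_sum, ← Equiv.sum_comp (Equiv.mulRight (y i)⁻¹)]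
    refine sum_congr rfl fun m _ => ?_
    rw [Equiv.coe_mulRight]
    simp only [inv_mul_cancel_right, Units.val_mul, map_mul]
    ring
  have h3 : ∑ χ : DirichletCharacter ℂ q, ‖∑ x, g x * χ (x : ZMod q)‖ ^ 2 ≤
      ∑ χ : DirichletCharacter ℂ q, (η * s.card) ^ 2 * ‖∑ a : (ZMod q)ˣ, (w a : ℂ) * χ (a : ZMod q)‖ ^ 2 := by
    apply sum_le_sum
    intro χ _
    have h4 : ∑ x, g x * χ (x : ZMod q) =
        (∑ i ∈ s, χ (((y i)⁻¹ : (ZMod q)ˣ) : ZMod q)) * (∑ a : (ZMod q)ˣ, (w a : ℂ) * χ (a : ZMod q)) -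
          s.card * (∑ a, (w a : ℂ)) / Nat.totient q * ∑ x : (ZMod q)ˣ, χ (x : ZMod q) := by
      rw [← hconv χ, mul_sum, ← sum_sub_distrib]
      refine sum_congr rfl fun x _ => ?_
      rw [hg]
      push_cast
      ring
    rw [h4]
    by_cases hh : χ = 1
    · have h6 : ∀ a : (ZMod q)ˣ, χ (a : ZMod q) = 1 := fun a => by
        rw [hh]
        exact MulChar.one_apply_coe a
      have h5 : (∑ i ∈ s, χ (((y i)⁻¹ : (ZMod q)ˣ) : ZMod q)) * (∑ a : (ZMod q)ˣ, (w a : ℂ) * χ (a : ZMod q)) -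
          s.card * (∑ a, (w a : ℂ)) / Nat.totient q * ∑ x : (ZMod q)ˣ, χ (x : ZMod q) = 0 := by
        simp only [h6, sum_const, nsmul_eq_mul, mul_one, card_univ, hcard]
        field_simp
        ring
      rw [h5, norm_zero, zero_pow two_ne_zero]
      positivity
    · rw [sum_units_char χ hh, mul_zero, sub_zero, norm_mul, mul_pow]
      refine mul_le_mul_of_nonneg_right ?_ (sq_nonneg _)
      have h7 : (∑ i ∈ s, χ (((y i)⁻¹ : (ZMod q)ˣ) : ZMod q)) = (starRingEnd ℂ) (∑ i ∈ s, χ (y i : ZMod q)) := by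
        rw [map_sum]
        exact sum_congr rfl fun i _ => (star_char χ (y i)).symm
      rw [h7, Complex.norm_conj]
      exact pow_le_pow_left₀ (norm_nonneg _) (hf χ hh) 2
  rw [mparseval g, ← mul_sum, mparseval fun a => (w a : ℂ)] at h3
  simp only [hnorm, Complex.norm_real, Real.norm_eq_abs, sq_abs] at h3
  have h10 : (Nat.totient q : ℝ) * ∑ m : (ZMod q)ˣ, (∑ i ∈ s, w (m * y i) - s.card * (∑ a, w a) / Nat.totient q) ^ 2 ≤
      Nat.totient q * (η ^ 2 * s.card ^ 2 * ∑ a, w a ^ 2) := by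
    calc _ ≤ _ := h3
      _ = _ := by ring
  exact le_of_mul_le_mul_left h10 hq0

end Run7.h337.MC
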