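import Mathlib
import Pool.Agent.Run7.h337.MC.Conv

/-!
# Multiplicatively flat families of logarithmic size (helper337)
-/

set_option autoImplicit false

namespace Run7.h337.MC

open Finset

lemma exp_le_lin (l x : ℝ) (hx : |x| ≤ 1) : Real.exp (l * x) ≤ Real.cosh l + x * Real.sinh l := by
  obtain ⟨h1, h2⟩ := abs_le.1 hx
  have h3 := convexOn_exp.2 (Set.mem_univ l) (Set.mem_univ (-l)) (show 0 ≤ (1 + x) / 2 by linarith)
    (show 0 ≤ (1 - x) / 2 by linarith) (by ring)
  simp only [smul_eq_mul] at h3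
  have h4 : (1 + x) / 2 * l + (1 - x) / 2 * -l = l * x := by ring
  rw [h4] at h3
  rw [Real.cosh_eq, Real.sinh_eq]
  linarith

/-- One step: a function f_c with values in [-1, 1] and sum zero over a finite set for every c; weights a_c >= 0. -/
lemma step {G C : Type} [Fintype G] [Nonempty G] (T : Finset C) (f : C → G → ℝ) (a : C → ℝ) (l : ℝ)
    (ha : ∀ c ∈ T, 0 ≤ a c) (hf : ∀ c ∈ T, ∀ g, |f c g| ≤ 1) (hs : ∀ c ∈ T, ∑ g, f c g = 0) :
    ∃ g, ∑ c ∈ T, a c * Real.exp (l * f c g) ≤ Real.exp (l ^ 2 / 2) * ∑ c ∈ T, a c := by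
  by_contra hcon
  push Not at hcon
  have h1 : ∑ g : G, ∑ c ∈ T, a c * Real.exp (l * f c g) ≤ Fintype.card G * (Real.exp (l ^ 2 / 2) * ∑ c ∈ T, a c) := by
    rw [sum_comm]
    calc ∑ c ∈ T, ∑ g : G, a c * Real.exp (l * f c g)
        ≤ ∑ c ∈ T, a c * (Fintype.card G * Real.exp (l ^ 2 / 2)) := by
          apply sum_le_sum
          intro c hc
          rw [← mul_sum]
          apply mul_le_mul_of_nonneg_left _ (ha c hc)
          calc ∑ g : G, Real.exp (l * f c g) ≤ ∑ g : G, (Real.cosh l + f c g * Real.sinh l) :=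
                sum_le_sum fun g _ => exp_le_lin l _ (hf c hc g)
            _ = Fintype.card G * Real.cosh l := by
                rw [sum_add_distrib, ← sum_mul, hs c hc, zero_mul, add_zero, sum_const, nsmul_eq_mul, card_univ]
            _ ≤ Fintype.card G * Real.exp (l ^ 2 / 2) := by
                apply mul_le_mul_of_nonneg_left _ (Nat.cast_nonneg _)
                exact Real.cosh_le_exp_half_sq l
      _ = _ := by
          rw [← sum_mul]
          ring
  have h2 : (Fintype.card G : ℝ) * (Real.exp (l ^ 2 / 2) * ∑ c ∈ T, a c) < ∑ g : G, ∑ c ∈ T, a c * Real.exp (l * f c g) := by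
    have h3 : ∑ _g : G, (Real.exp (l ^ 2 / 2) * ∑ c ∈ T, a c) < ∑ g : G, ∑ c ∈ T, a c * Real.exp (l * f c g) :=
      sum_lt_sum_of_nonempty univ_nonempty fun g _ => hcon g
    rwa [sum_const, nsmul_eq_mul, card_univ] at h3
  exact absurd h1 (not_le.2 h2)

/-- k steps. -/
lemma steps {G C : Type} [Fintype G] [Nonempty G] (T : Finset C) (f : C → G → ℝ) (l : ℝ)
    (hf : ∀ c ∈ T, ∀ g, |f c g| ≤ 1) (hs : ∀ c ∈ T, ∑ g, f c g = 0) (k : ℕ) :
    ∃ y : Fin k → G, ∑ c ∈ T, Real.exp (l * ∑ i, f c (y i)) ≤ Real.exp (l ^ 2 / 2 * k) * T.card := by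
  induction k with
  | zero =>
    refine ⟨fun i => i.elim0, ?_⟩
    simp
  | succ k ih =>
    obtain ⟨y, hy⟩ := ih
    obtain ⟨g, hg⟩ := step T f (fun c => Real.exp (l * ∑ i, f c (y i))) l (fun c _ => (Real.exp_pos _).le) hf hs
    refine ⟨Fin.cons g y, ?_⟩
    have h1 : ∀ c, Real.exp (l * ∑ i, f c ((Fin.cons g y : Fin (k + 1) → G) i)) =
        Real.exp (l * ∑ i, f c (y i)) * Real.exp (l * f c g) := by
      intro c
      rw [← Real.exp_add, Fin.sum_univ_succ]
      simp only [Fin.cons_zero, Fin.cons_succ]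
      congr 1
      ring
    simp only [h1]
    calc _ ≤ _ := hg
      _ ≤ Real.exp (l ^ 2 / 2) * (Real.exp (l ^ 2 / 2 * k) * T.card) :=
        mul_le_mul_of_nonneg_left hy (Real.exp_pos _).le
      _ = Real.exp (l ^ 2 / 2 * (k + 1 : ℕ)) * T.card := by
        rw [← mul_assoc, ← Real.exp_add]
        congr 2
        push_cast
        ring

/-- For every modulus q there are flat families of every size k >= 4 log (4 phi(q)) / eta^2. -/
theorem exists_flat (q : ℕ) [NeZero q] (η : ℝ) (hη : 0 < η) (k : ℕ)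
    (hk : 4 * Real.log (4 * Nat.totient q) ≤ η ^ 2 * k) :
    ∃ y : Fin k → (ZMod q)ˣ, MulFlat q η univ y := by
  classical
  have hφ : (1 : ℝ) ≤ Nat.totient q := by
    exact_mod_cast Nat.totient_pos.2 (Nat.pos_of_ne_zero (NeZero.ne q))
  obtain ⟨A, hA⟩ : ∃ A, A = Real.log (4 * Nat.totient q) := ⟨_, rfl⟩
  have hA0 : 0 < A := by
    rw [hA]
    exact Real.log_pos (by linarith)
  rw [← hA] at hk
  have hk0 : (0 : ℝ) < k := by
    by_contra hcon
    have : (k : ℝ) ≤ 0 := not_lt.1 hcon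
    have h2 : η ^ 2 * (k : ℝ) ≤ 0 := mul_nonpos_of_nonneg_of_nonpos (sq_nonneg _) this
    linarith
  -- the index set: characters with a choice of the four directions
  obtain ⟨T, hT⟩ : ∃ T : Finset (DirichletCharacter ℂ q × Fin 4), T = (univ.filter fun χ : DirichletCharacter ℂ q => χ ≠ 1) ×ˢ univ := ⟨_, rfl⟩
  obtain ⟨dir, hdir⟩ : ∃ dir : Fin 4 → ℂ → ℝ, dir = ![fun z => z.re, fun z => -z.re, fun z => z.im, fun z => -z.im] := ⟨_, rfl⟩
  have hd1 : ∀ j z, |dir j z| ≤ ‖z‖ := by
    intro j z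
    rw [hdir]
    fin_cases j
    · exact Complex.abs_re_le_norm z
    · simp only [Fin.mk_one, Matrix.cons_val_one, Matrix.cons_val_zero, abs_neg]
      exact Complex.abs_re_le_norm z
    · exact Complex.abs_im_le_norm z
    · simp only [Fin.reduceFinMk, Matrix.cons_val, abs_neg]
      exact Complex.abs_im_le_norm z
  have hdsum : ∀ j {ι : Type} (s : Finset ι) (z : ι → ℂ), ∑ i ∈ s, dir j (z i) = dir j (∑ i ∈ s, z i) := by
    intro j ι s z
    rw [hdir]
    fin_cases j <;> simp [Complex.re_sum, Complex.im_sum]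
  obtain ⟨l, hl⟩ : ∃ l, l = Real.sqrt (2 * A / k) := ⟨_, rfl⟩
  have hl0 : 0 < l := by rw [hl]; positivity
  have hl2 : l ^ 2 = 2 * A / k := by rw [hl, Real.sq_sqrt (by positivity)]
  obtain ⟨y, hy⟩ := steps T (fun c g => dir c.2 (c.1 ((g : (ZMod q)ˣ) : ZMod q))) l (fun c _ g => by
      refine (hd1 _ _).trans ?_
      rw [DirichletCharacter.unit_norm_eq_one]) (fun c hc => by
      rw [hT, mem_product, mem_filter] at hc
      rw [hdsum, sum_units_char c.1 hc.1.2, hdir]
      obtain ⟨c1, c2⟩ := c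
      fin_cases c2 <;> simp) k
  refine ⟨y, fun χ hχ => ?_⟩
  have hTc : (T.card : ℝ) ≤ 4 * Nat.totient q := by
    rw [hT, card_product, card_univ, Fintype.card_fin]
    have h1 : (univ.filter fun χ : DirichletCharacter ℂ q => χ ≠ 1).card ≤ Nat.totient q := by
      calc _ ≤ (univ : Finset (DirichletCharacter ℂ q)).card := card_filter_le _ _
        _ = Nat.totient q := by
          rw [card_univ, ← Nat.card_eq_fintype_card]
          exact DirichletCharacter.card_eq_totient_of_hasEnoughRootsOfUnity ℂ q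
    have h2 : (univ.filter fun χ : DirichletCharacter ℂ q => χ ≠ 1).card * 4 ≤ 4 * Nat.totient q := by omega
    exact_mod_cast h2
  have h1 : ∀ j : Fin 4, dir j (∑ i, χ (y i : ZMod q)) ≤ Real.sqrt (2 * A * k) := by
    intro j
    have h2 : Real.exp (l * ∑ i, dir j (χ (y i : ZMod q))) ≤ Real.exp (A + A) := by
      calc Real.exp (l * ∑ i, dir j (χ (y i : ZMod q)))
          ≤ ∑ c ∈ T, Real.exp (l * ∑ i, dir c.2 (c.1 (y i : ZMod q))) := by
            apply single_le_sum (f := fun c : DirichletCharacter ℂ q × Fin 4 =>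
              Real.exp (l * ∑ i, dir c.2 (c.1 (y i : ZMod q)))) (fun c _ => (Real.exp_pos _).le) (a := (χ, j))
            rw [hT, mem_product, mem_filter]
            exact ⟨⟨mem_univ _, hχ⟩, mem_univ _⟩
        _ ≤ Real.exp (l ^ 2 / 2 * k) * T.card := hy
        _ ≤ Real.exp A * Real.exp A := by
            have h3 : l ^ 2 / 2 * k = A := by
              rw [hl2]
              field_simp
            rw [h3]
            apply mul_le_mul_of_nonneg_left _ (Real.exp_pos _).le
            rw [hA, Real.exp_log (by linarith)]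
            exact hTc
        _ = Real.exp (A + A) := (Real.exp_add _ _).symm
    rw [Real.exp_le_exp, hdsum] at h2
    have h3 : Real.sqrt (2 * A * k) * l = 2 * A := by
      rw [hl, ← Real.sqrt_mul (by positivity)]
      have : 2 * A * k * (2 * A / k) = (2 * A) ^ 2 := by
        field_simp
      rw [this, Real.sqrt_sq (by linarith)]
    have h4 : l * dir j (∑ i, χ (y i : ZMod q)) ≤ l * Real.sqrt (2 * A * k) := by
      calc _ ≤ A + A := h2
        _ = l * Real.sqrt (2 * A * k) := by linarith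
    exact le_of_mul_le_mul_left h4 hl0
  have e0 := h1 0
  have e1 := h1 1
  have e2 := h1 2
  have e3 := h1 3
  rw [hdir] at e0 e1 e2 e3
  simp only [Matrix.cons_val_zero, Matrix.cons_val_one, Matrix.cons_val] at e0 e1 e2 e3
  obtain ⟨S, hS⟩ : ∃ S : ℂ, S = ∑ i, χ (y i : ZMod q) := ⟨_, rfl⟩
  rw [← hS] at e0 e1 e2 e3 ⊢
  have hB : 0 ≤ Real.sqrt (2 * A * k) := Real.sqrt_nonneg _
  have hre : S.re ^ 2 ≤ 2 * A * k := by
    rw [← Real.sq_sqrt (show 0 ≤ 2 * A * (k : ℝ) by positivity)]
    exact sq_le_sq' (by linarith) e0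
  have him : S.im ^ 2 ≤ 2 * A * k := by
    rw [← Real.sq_sqrt (show 0 ≤ 2 * A * (k : ℝ) by positivity)]
    exact sq_le_sq' (by linarith) e2
  rw [card_univ, Fintype.card_fin]
  apply le_of_sq_le_sq _ (by positivity)
  rw [← Complex.normSq_eq_norm_sq, Complex.normSq_apply]
  calc S.re * S.re + S.im * S.im ≤ 4 * A * k := by nlinarith
    _ ≤ (η ^ 2 * k) * k := mul_le_mul_of_nonneg_right hk hk0.le
    _ = (η * k) ^ 2 := by ring

end Run7.h337.MC
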