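import Mathlib
import Pool.Agent.Run7.h337.MC.Conv
import Pool.Agent.H617R3.BT.Defs

/-!
# Primes in the translates of a multiplicatively flat family of residue classes (helper337)
-/

set_option autoImplicit false

namespace Run7.h337.MC

open Finset Filter
open Pool.Agent.H617R3.BT (cnt bt cnt_eq pf mem_pf)

/-- The number of primes p with x - h < p <= x in the residue class a modulo q. -/
noncomputable def primesIn (x h : ℝ) (q : ℕ) (a : ZMod q) : ℕ :=
  {p : ℕ | p.Prime ∧ x - h < (p : ℝ) ∧ (p : ℝ) ≤ x ∧ (p : ZMod q) = a}.ncard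

/-- The number of primes p with x - h < p <= x that do not divide q. -/
noncomputable def primesPrimeTo (x h : ℝ) (q : ℕ) : ℕ :=
  {p : ℕ | p.Prime ∧ x - h < (p : ℝ) ∧ (p : ℝ) ≤ x ∧ ¬ p ∣ q}.ncard

/-- The primes p with x - h < p <= x. -/
noncomputable def ps (x h : ℝ) : Finset ℕ := by
  classical
  exact (range (⌊x⌋₊ + 1)).filter fun p => p.Prime ∧ x - h < (p : ℝ) ∧ (p : ℝ) ≤ x

lemma mem_ps {x h : ℝ} {p : ℕ} : p ∈ ps x h ↔ p.Prime ∧ x - h < (p : ℝ) ∧ (p : ℝ) ≤ x := by
  classical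
  unfold ps
  rw [mem_filter, mem_range]
  refine ⟨fun h => h.2, fun h => ⟨?_, h⟩⟩
  have : p ≤ ⌊x⌋₊ := Nat.le_floor h.2.2
  omega

variable {q : ℕ} [NeZero q]

lemma primesIn_eq (x h : ℝ) (a : ZMod q) : primesIn x h q a = ((ps x h).filter fun p : ℕ => (p : ZMod q) = a).card := by
  classical
  unfold primesIn
  rw [← Set.ncard_coe_finset]
  congr 1
  ext p
  rw [Finset.mem_coe, mem_filter, mem_ps, Set.mem_ofPred_eq]
  tauto

lemma primesPrimeTo_eq (x h : ℝ) (q : ℕ) : primesPrimeTo x h q = ((ps x h).filter fun p => ¬ p ∣ q).card := by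
  classical
  unfold primesPrimeTo
  rw [← Set.ncard_coe_finset]
  congr 1
  ext p
  rw [Finset.mem_coe, mem_filter, mem_ps, Set.mem_ofPred_eq]
  tauto

lemma total (x h : ℝ) : ∑ m : (ZMod q)ˣ, primesIn x h q (m : ZMod q) = primesPrimeTo x h q := by
  classical
  rw [primesPrimeTo_eq]
  have h1 := card_eq_sum_card_fiberwise (f := fun p : ℕ => (p : ZMod q))
    (s := (ps x h).filter fun p => ¬ p ∣ q) (t := univ.image fun u : (ZMod q)ˣ => (u : ZMod q)) (by
      intro p hp
      rw [Finset.mem_coe, mem_filter, mem_ps] at hp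
      rw [Finset.mem_coe, mem_image]
      have h2 : IsUnit (p : ZMod q) := (ZMod.isUnit_iff_coprime p q).2 ((Nat.Prime.coprime_iff_not_dvd hp.1.1).2 hp.2)
      exact ⟨h2.unit, mem_univ _, rfl⟩)
  rw [h1, sum_image (fun a _ b _ hab => Units.ext hab)]
  refine sum_congr rfl fun m _ => ?_
  rw [primesIn_eq]
  congr 1
  ext p
  simp only [mem_filter]
  constructor
  · rintro ⟨h3, h4⟩
    refine ⟨⟨h3, ?_⟩, h4⟩
    have h5 : IsUnit (p : ZMod q) := by
      rw [h4]
      exact m.isUnit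
    rw [ZMod.isUnit_iff_coprime] at h5
    exact (Nat.Prime.coprime_iff_not_dvd (mem_ps.1 h3).1).1 h5
  · rintro ⟨⟨h3, _⟩, h4⟩
    exact ⟨h3, h4⟩

lemma primesIn_eq_cnt (x h : ℝ) (a : ZMod q) : primesIn x h q a = cnt x h q (a.val : ℤ) := by
  unfold primesIn cnt
  congr 1
  ext p
  rw [Set.mem_ofPred_eq, Set.mem_ofPred_eq]
  have h1 : (p : ZMod q) = a ↔ (p : ℤ) ≡ (a.val : ℤ) [ZMOD (q : ℤ)] := by
    rw [← ZMod.intCast_eq_intCast_iff]
    push_cast
    rw [ZMod.natCast_zmod_val]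
  rw [h1]

/-- The mean square over all translates of the primes in a flat family of residue classes, for every modulus. -/
theorem variance (ε : ℝ) (hε : 0 < ε) : ∃ Z : ℝ, 3 ≤ Z ∧ ∀ (q : ℕ) [NeZero q] (x h : ℝ), Z ≤ h / q →
    ∀ {ι : Type} (s : Finset ι) (y : ι → (ZMod q)ˣ) (η : ℝ), MulFlat q η s y →
    ∑ m : (ZMod q)ˣ, (∑ i ∈ s, (primesIn x h q ((m * y i : (ZMod q)ˣ) : ZMod q) : ℝ) -
      s.card * (primesPrimeTo x h q : ℝ) / Nat.totient q) ^ 2 ≤
    η ^ 2 * s.card ^ 2 * ((2 + ε) * h / (Nat.totient q * Real.log (h / q)) * primesPrimeTo x h q) := by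
  obtain ⟨Z, hZ3, hZ⟩ := bt ε hε
  refine ⟨Z, hZ3, fun q _ x h hh ι s y η hf => ?_⟩
  have h1 := mconv_l2 η s y hf fun a => (primesIn x h q (a : ZMod q) : ℝ)
  have h2 : ∑ a : (ZMod q)ˣ, (primesIn x h q (a : ZMod q) : ℝ) = primesPrimeTo x h q := by
    exact_mod_cast total x h
  rw [h2] at h1
  refine h1.trans ?_
  apply mul_le_mul_of_nonneg_left _ (by positivity)
  have h3 : ∀ a : (ZMod q)ˣ, (primesIn x h q (a : ZMod q) : ℝ) ≤ (2 + ε) * h / (Nat.totient q * Real.log (h / q)) := by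
    intro a
    rw [primesIn_eq_cnt]
    exact hZ q _ x h (Nat.pos_of_ne_zero (NeZero.ne q)) hh
  calc ∑ a : (ZMod q)ˣ, (primesIn x h q (a : ZMod q) : ℝ) ^ 2
      ≤ ∑ a : (ZMod q)ˣ, (2 + ε) * h / (Nat.totient q * Real.log (h / q)) * (primesIn x h q (a : ZMod q) : ℝ) := by
        apply sum_le_sum
        intro a _
        rw [pow_two]
        exact mul_le_mul_of_nonneg_right (h3 a) (Nat.cast_nonneg _)
    _ = _ := by rw [← mul_sum, h2]

lemma omega_le (q : ℕ) (hq : 1 ≤ q) : (q.primeFactors.card : ℝ) ≤ 2 * Real.log q := by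
  have h8 : 2 ^ q.primeFactors.card ≤ q := by
    calc 2 ^ q.primeFactors.card = ∏ p ∈ q.primeFactors, 2 := by rw [prod_const]
      _ ≤ ∏ p ∈ q.primeFactors, p :=
        prod_le_prod' fun p hp => (Nat.prime_of_mem_primeFactors hp).two_le
      _ ≤ q := Nat.le_of_dvd (by omega) (Nat.prod_primeFactors_dvd q)
  have q1 : (2 : ℝ) ^ q.primeFactors.card ≤ q := by exact_mod_cast h8
  have q2 := Real.log_le_log (by positivity) q1
  rw [Real.log_pow] at q2
  have q3 : (1 : ℝ) / 2 ≤ Real.log 2 := by linarith [Real.log_two_gt_d9]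
  nlinarith [(Nat.cast_nonneg q.primeFactors.card : (0 : ℝ) ≤ (q.primeFactors.card : ℝ))]

lemma prod_low (S : Finset ℕ) (hS : ∀ p ∈ S, 2 ≤ p) :
    (1 : ℚ) / (S.card + 1) ≤ ∏ p ∈ S, (1 - (p : ℚ)⁻¹) := by
  induction S using Finset.induction_on_max with
  | empty => simp
  | insert a s hmax ih =>
    have ha : a ∉ s := fun h => (hmax a h).false
    rw [prod_insert ha, card_insert_of_notMem ha]
    have h1 := ih fun p hp => hS p (mem_insert_of_mem hp)
    have h2 : 2 ≤ a := hS a (mem_insert_self _ _)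
    have h3 : s.card ≤ a - 2 := by
      have : s ⊆ Ico 2 a := by
        intro p hp
        rw [mem_Ico]
        exact ⟨hS p (mem_insert_of_mem hp), hmax p hp⟩
      have := card_le_card this
      rwa [Nat.card_Ico] at this
    have h4 : (s.card : ℚ) + 2 ≤ a := by
      exact_mod_cast (by omega : s.card + 2 ≤ a)
    have hc : (0 : ℚ) ≤ s.card := Nat.cast_nonneg _
    have h5 : (a : ℚ)⁻¹ ≤ 1 / (s.card + 2) := by
      rw [← one_div]
      exact one_div_le_one_div_of_le (by linarith) h4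
    have h6 : ((s.card : ℚ) + 1) / (s.card + 2) ≤ 1 - (a : ℚ)⁻¹ := by
      have : 1 - 1 / ((s.card : ℚ) + 2) = (s.card + 1) / (s.card + 2) := by
        field_simp
        ring
      linarith
    have h7 : (1 : ℚ) / (s.card + 1) * ((s.card + 1) / (s.card + 2)) = 1 / (s.card + 2) := by
      field_simp
    push_cast
    calc (1 : ℚ) / (s.card + 1 + 1) = 1 / (s.card + 2) := by
          congr 1
          ring
      _ = (s.card + 1) / (s.card + 2) * (1 / (s.card + 1)) := by rw [← h7, mul_comm]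
      _ ≤ (1 - (a : ℚ)⁻¹) * ∏ p ∈ s, (1 - (p : ℚ)⁻¹) := by
          apply mul_le_mul h6 h1 (by positivity)
          refine le_trans (by positivity) h6

lemma phi_low (q : ℕ) (hq : 1 ≤ q) : (q : ℝ) ≤ (1 + 2 * Real.log q) * Nat.totient q := by
  have h1 := prod_low q.primeFactors (fun p hp => (Nat.prime_of_mem_primeFactors hp).two_le)
  have h2 := Nat.totient_eq_mul_prod_factors q
  have h3 : (q : ℚ) ≤ (q.primeFactors.card + 1) * Nat.totient q := by
    rw [h2]
    rw [div_le_iff₀ (by positivity)] at h1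
    have h0 : (0 : ℚ) ≤ q := Nat.cast_nonneg _
    nlinarith
  have h4 : (q : ℝ) ≤ (q.primeFactors.card + 1) * Nat.totient q := by exact_mod_cast h3
  have h5 := omega_le q hq
  refine h4.trans ?_
  apply mul_le_mul_of_nonneg_right _ (Nat.cast_nonneg _)
  linarith

lemma w_low : ∃ N₀ : ℕ, ∀ N : ℕ, N₀ ≤ N → ∀ q : ℕ, 1 ≤ q → q ≤ N →
    (N : ℝ) / (2 * Real.log N) ≤ primesPrimeTo N N q := by
  have hev : ∀ᶠ x : ℝ in atTop, ‖Real.log x ^ 2‖ ≤ 1 / 100 * ‖x‖ := by
    have h := (isLittleO_log_rpow_rpow_atTop (2 : ℝ) (zero_lt_one)).bound (show (0 : ℝ) < 1 / 100 by norm_num)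
    filter_upwards [h] with x hx
    simpa using hx
  obtain ⟨x₀, hx₀⟩ := eventually_atTop.1 (hev.and (eventually_ge_atTop 3))
  refine ⟨⌈x₀⌉₊ + 3, fun N hN q hq hqN => ?_⟩
  have hNx : x₀ ≤ (N : ℝ) := by
    have h1 : ⌈x₀⌉₊ ≤ N := by omega
    exact (Nat.le_ceil _).trans (by exact_mod_cast h1)
  obtain ⟨h1, h2⟩ := hx₀ N hNx
  rw [Real.norm_of_nonneg (sq_nonneg _), Real.norm_of_nonneg (Nat.cast_nonneg N)] at h1
  have hL1 : 1 < Real.log N := by
    rw [Real.lt_log_iff_exp_lt (by linarith)]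
    linarith [Real.exp_one_lt_d9]
  have h3 := Chebyshev.psi_ge N
  have h4 := Chebyshev.psi_le_primeCounting_mul_log N
  have h5 : (Nat.primeCounting N : ℝ) ≤ primesPrimeTo N N q + q.primeFactors.card := by
    rw [primesPrimeTo_eq]
    have h6 : Nat.primeCounting N = (ps (N : ℝ) N).card := by
      rw [← Nat.primesLE_card_eq_primeCounting]
      congr 1
      ext p
      rw [mem_ps, Nat.mem_primesLE]
      constructor
      · rintro ⟨h7, h8⟩
        refine ⟨h8, ?_, by exact_mod_cast h7⟩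
        have : (0 : ℝ) < p := by exact_mod_cast h8.pos
        linarith
      · rintro ⟨h7, _, h8⟩
        exact ⟨by exact_mod_cast h8, h7⟩
    have h7 : (ps (N : ℝ) N) ⊆ ((ps (N : ℝ) N).filter fun p => ¬ p ∣ q) ∪ q.primeFactors := by
      intro p hp
      rw [mem_union, mem_filter, Nat.mem_primeFactors]
      by_cases h8 : p ∣ q
      · exact Or.inr ⟨(mem_ps.1 hp).1, h8, by omega⟩
      · exact Or.inl ⟨hp, h8⟩
    have h8 := (card_le_card h7).trans (card_union_le _ _)
    rw [h6]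
    exact_mod_cast h8
  have h6 := omega_le q hq
  have h7 : Real.log q ≤ Real.log N := Real.log_le_log (by exact_mod_cast hq) (by exact_mod_cast hqN)
  have h8 : Real.log ((N : ℝ) + 1) ≤ Real.log N + Real.log 2 := by
    rw [← Real.log_mul (by linarith) (by norm_num)]
    apply Real.log_le_log (by linarith)
    linarith
  have hl2 := Real.log_two_gt_d9
  have hl2' := Real.log_two_lt_d9
  rw [div_le_iff₀ (by linarith)]
  have h9 : (N : ℝ) * Real.log 2 - Real.log N - Real.log 2 ≤ (primesPrimeTo N N q + q.primeFactors.card : ℝ) * Real.log N := by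
    calc (N : ℝ) * Real.log 2 - Real.log N - Real.log 2 ≤ (N : ℝ) * Real.log 2 - Real.log ((N : ℝ) + 1) := by linarith
      _ ≤ Chebyshev.psi N := h3
      _ ≤ Nat.primeCounting N * Real.log N := h4
      _ ≤ _ := mul_le_mul_of_nonneg_right h5 (by linarith)
  have h10 : (q.primeFactors.card : ℝ) * Real.log N ≤ 2 * Real.log N ^ 2 := by
    have : (q.primeFactors.card : ℝ) ≤ 2 * Real.log N := by linarith
    nlinarith
  nlinarith

end Run7.h337.MC
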