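import Mathlib
import Pool.Agent.Run7.h337.MC.Primes
import Pool.Agent.Run7.h337.MC.Exist

/-!
# Primes in the translates of flat families of residue classes: the theorem for every interval and modulus (helper337)
-/

set_option autoImplicit false

namespace Run7.h337.MC

open Finset Filter
open Pool.Agent.H617R3.BT (cnt bt cnt_eq pf mem_pf)

/-- The number of pairs of a prime p with x - h < p <= x and i in s with p = m y_i modulo q. -/
noncomputable def classSum {ι : Type} {q : ℕ} (x h : ℝ) (s : Finset ι) (y : ι → (ZMod q)ˣ) (m : (ZMod q)ˣ) : ℝ :=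
  ∑ i ∈ s, (primesIn x h q ((m * y i : (ZMod q)ˣ) : ZMod q) : ℝ)

/-- Its mean over all m: k times the number of primes in (x - h, x] that do not divide q, divided by phi(q). -/
noncomputable def expected (x h : ℝ) (q k : ℕ) : ℝ := k * (primesPrimeTo x h q : ℝ) / Nat.totient q

/-- The number of the m for which the error is larger than b. -/
noncomputable def badCount {ι : Type} {q : ℕ} [NeZero q] (x h : ℝ) (s : Finset ι) (y : ι → (ZMod q)ˣ) (b : ℝ) : ℕ :=
  open Classical in (univ.filter fun m : (ZMod q)ˣ => b < |classSum x h s y m - expected x h q s.card|).card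

lemma cheb {G : Type} [Fintype G] (g : G → ℝ) (b V : ℝ) (hb : 0 < b) (h : ∑ m, g m ^ 2 ≤ V) :
    open Classical in ((univ.filter fun m : G => b < |g m|).card : ℝ) ≤ V / b ^ 2 := by
  classical
  rw [le_div_iff₀ (by positivity)]
  calc ((univ.filter fun m : G => b < |g m|).card : ℝ) * b ^ 2 = ∑ m ∈ univ.filter fun m : G => b < |g m|, b ^ 2 := by
        rw [sum_const, nsmul_eq_mul]
    _ ≤ ∑ m ∈ univ.filter fun m : G => b < |g m|, g m ^ 2 := by
        apply sum_le_sum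
        intro m hm
        rw [mem_filter] at hm
        rw [← sq_abs (g m)]
        exact pow_le_pow_left₀ hb.le hm.2.le 2
    _ ≤ ∑ m, g m ^ 2 := sum_le_sum_of_subset_of_nonneg (filter_subset _ _) fun m _ _ => sq_nonneg _
    _ ≤ V := h

lemma prime_to_le (x h : ℝ) (q : ℕ) : primesPrimeTo x h q ≤ cnt x h 1 0 := by
  classical
  rw [primesPrimeTo_eq, cnt_eq]
  apply card_le_card
  intro p hp
  rw [mem_filter, mem_ps] at hp
  rw [mem_pf]
  refine ⟨hp.1.1, hp.1.2.1, hp.1.2.2, ?_⟩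
  push_cast
  exact Int.modEq_one

theorem interval_var (δ : ℝ) (hδ : 0 < δ) (hδ1 : δ < 1) : ∃ H₀ : ℝ, 3 ≤ H₀ ∧ ∀ (x h : ℝ) (q : ℕ) [NeZero q],
    H₀ ≤ h → (q : ℝ) ≤ h ^ (1 - δ) → ∀ {ι : Type} (s : Finset ι) (y : ι → (ZMod q)ˣ) (η : ℝ), MulFlat q η s y →
    ∑ m : (ZMod q)ˣ, (classSum x h s y m - expected x h q s.card) ^ 2 ≤
      9 * η ^ 2 * s.card ^ 2 * h ^ 2 / (δ * Nat.totient q * Real.log h ^ 2) := by
  obtain ⟨Z₁, hZ3, hZ⟩ := variance 1 one_pos
  obtain ⟨Z₂, hZ23, hZ2⟩ := bt 1 one_pos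
  obtain ⟨H, hH⟩ := eventually_atTop.1 ((tendsto_rpow_atTop hδ).eventually (eventually_ge_atTop Z₁))
  refine ⟨max (max H Z₂) 3, le_max_right _ _, fun x h q _ hh hq ι s y η hf => ?_⟩
  have hh3 : 3 ≤ h := (le_max_right _ _).trans hh
  have hhH : H ≤ h := ((le_max_left _ _).trans (le_max_left _ _)).trans hh
  have hhZ : Z₂ ≤ h := ((le_max_right _ _).trans (le_max_left _ _)).trans hh
  have hq0 : (0 : ℝ) < q := by exact_mod_cast Nat.pos_of_ne_zero (NeZero.ne q)
  have hφ : (0 : ℝ) < Nat.totient q := by exact_mod_cast Nat.totient_pos.2 (Nat.pos_of_ne_zero (NeZero.ne q))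
  have hh0 : 0 < h := by linarith
  have hlog : 0 < Real.log h := Real.log_pos (by linarith)
  have h1 : h ^ δ ≤ h / q := by
    rw [le_div_iff₀ hq0]
    calc h ^ δ * q ≤ h ^ δ * h ^ (1 - δ) := mul_le_mul_of_nonneg_left hq (Real.rpow_nonneg hh0.le _)
      _ = h := by
        rw [← Real.rpow_add hh0]
        simp
  have h2 := hZ q x h ((hH h hhH).trans h1) s y η hf
  have h3 : δ * Real.log h ≤ Real.log (h / q) := by
    rw [← Real.log_rpow hh0]
    exact Real.log_le_log (Real.rpow_pos_of_pos hh0 _) h1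
  have h4 : (primesPrimeTo x h q : ℝ) ≤ 3 * h / Real.log h := by
    have h5 := hZ2 1 0 x h le_rfl (by rw [Nat.cast_one, div_one]; exact hhZ)
    rw [Nat.totient_one, Nat.cast_one, div_one, one_mul] at h5
    have h6 : (primesPrimeTo x h q : ℝ) ≤ cnt x h 1 0 := by exact_mod_cast prime_to_le x h q
    refine h6.trans (h5.trans (le_of_eq ?_))
    norm_num
  refine le_trans (le_of_eq ?_) (h2.trans ?_)
  · rfl
  · have h7 : (2 + 1) * h / (Nat.totient q * Real.log (h / q)) ≤ 3 * h / (Nat.totient q * (δ * Real.log h)) := by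
      rw [show (2 : ℝ) + 1 = 3 by norm_num]
      apply div_le_div_of_nonneg_left (by positivity) (by positivity)
      exact mul_le_mul_of_nonneg_left h3 hφ.le
    calc η ^ 2 * (s.card : ℝ) ^ 2 * ((2 + 1) * h / (Nat.totient q * Real.log (h / q)) * primesPrimeTo x h q)
        ≤ η ^ 2 * (s.card : ℝ) ^ 2 * (3 * h / (Nat.totient q * (δ * Real.log h)) * (3 * h / Real.log h)) := by
          apply mul_le_mul_of_nonneg_left _ (by positivity)
          apply mul_le_mul h7 h4 (Nat.cast_nonneg _) (by positivity)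
      _ = _ := by
          field_simp
          ring

lemma w_low_real : ∃ H₀ : ℝ, ∀ h : ℝ, H₀ ≤ h → ∀ q : ℕ, 1 ≤ q → (q : ℝ) ≤ h →
    h / (3 * Real.log h) ≤ primesPrimeTo h h q := by
  obtain ⟨N₀, h0⟩ := w_low
  refine ⟨max (N₀ + 1) 4, fun h hh q hq hqh => ?_⟩
  have hh4 : 4 ≤ h := (le_max_right _ _).trans hh
  have hhN : (N₀ : ℝ) + 1 ≤ h := (le_max_left _ _).trans hh
  have h1 : (⌊h⌋₊ : ℝ) ≤ h := Nat.floor_le (by linarith)
  have h2 : h < ⌊h⌋₊ + 1 := Nat.lt_floor_add_one h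
  have h3 : N₀ ≤ ⌊h⌋₊ := Nat.le_floor (by linarith)
  have h4 := h0 ⌊h⌋₊ h3 q hq (Nat.le_floor hqh)
  have h5 : primesPrimeTo (⌊h⌋₊ : ℝ) ⌊h⌋₊ q = primesPrimeTo h h q := by
    unfold primesPrimeTo
    congr 1
    ext p
    rw [Set.mem_ofPred_eq, Set.mem_ofPred_eq, sub_self, sub_self]
    constructor
    · rintro ⟨a1, a2, a3, a4⟩
      exact ⟨a1, a2, a3.trans h1, a4⟩
    · rintro ⟨a1, a2, a3, a4⟩
      refine ⟨a1, a2, ?_, a4⟩
      exact_mod_cast Nat.le_floor a3
  rw [h5] at h4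
  refine le_trans ?_ h4
  have hl0 : 0 < Real.log (⌊h⌋₊ : ℝ) := Real.log_pos (by linarith)
  have hl1 : Real.log (⌊h⌋₊ : ℝ) ≤ Real.log h := Real.log_le_log (by linarith) h1
  rw [div_le_div_iff₀ (by linarith) (by linarith)]
  have h6 : 2 * h ≤ 3 * ⌊h⌋₊ := by linarith
  calc h * (2 * Real.log (⌊h⌋₊ : ℝ)) ≤ h * (2 * Real.log h) := by
        apply mul_le_mul_of_nonneg_left _ (by linarith)
        linarith
    _ = 2 * h * Real.log h := by ring
    _ ≤ 3 * ⌊h⌋₊ * Real.log h := mul_le_mul_of_nonneg_right h6 (by linarith)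
    _ = _ := by ring

/-- The theorem. -/
theorem main (δ : ℝ) (hδ : 0 < δ) (hδ1 : δ < 1) : ∃ H₀ : ℝ, ∀ (x h : ℝ) (q : ℕ) [NeZero q],
    H₀ ≤ h → (q : ℝ) ≤ h ^ (1 - δ) →
    (∀ {ι : Type} (s : Finset ι) (y : ι → (ZMod q)ˣ) (η : ℝ), s.Nonempty → 0 ≤ η → MulFlat q η s y →
      (∑ m : (ZMod q)ˣ, (classSum x h s y m - expected x h q s.card) ^ 2 ≤
        9 * η ^ 2 * s.card ^ 2 * h ^ 2 / (δ * Nat.totient q * Real.log h ^ 2)) ∧
      (∀ ε : ℝ, 0 < ε → (badCount x h s y (ε * (s.card * h / (Nat.totient q * Real.log h))) : ℝ) ≤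
        9 * η ^ 2 / (δ * ε ^ 2) * Nat.totient q) ∧
      (∀ Z : Finset (ZMod q)ˣ, |∑ m ∈ Z, classSum x h s y m - Z.card * expected x h q s.card| ≤
        3 * η * (s.card * h / Real.log h) * Real.sqrt (Z.card / (δ * Nat.totient q))) ∧
      (x = h → ∀ ε : ℝ, 0 < ε → (badCount x h s y (ε * expected x h q s.card) : ℝ) ≤
        81 * η ^ 2 / (δ * ε ^ 2) * Nat.totient q) ∧
      (η ≤ h ^ δ * (q / h) ^ (1 / 2 : ℝ) →
        (badCount x h s y (s.card * (h ^ (1 / 2 + 3 * δ) / (q : ℝ) ^ (1 / 2 : ℝ))) : ℝ) ≤ Nat.totient q / h ^ δ)) ∧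
    ∀ (η : ℝ) (k : ℕ), 0 < η → 4 * Real.log (4 * Nat.totient q) ≤ η ^ 2 * k →
      ∃ y : Fin k → (ZMod q)ˣ, MulFlat q η univ y := by
  classical
  obtain ⟨H₁, hH13, hH1⟩ := interval_var δ hδ hδ1
  obtain ⟨H₂, hH2⟩ := w_low_real
  obtain ⟨H₃, hH3⟩ := eventually_atTop.1 ((tendsto_rpow_atTop (show 0 < 3 * δ by linarith)).eventually
    (eventually_ge_atTop (81 / δ)))
  refine ⟨max (max H₁ H₂) H₃, fun x h q _ hh hq => ⟨?_, fun η k hη hk => exists_flat q η hη k hk⟩⟩
  intro ι s y η hs hη hf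
  have hhH1 : H₁ ≤ h := ((le_max_left _ _).trans (le_max_left _ _)).trans hh
  have hhH2 : H₂ ≤ h := ((le_max_right _ _).trans (le_max_left _ _)).trans hh
  have hhH3 : H₃ ≤ h := (le_max_right _ _).trans hh
  have hh3 : 3 ≤ h := hH13.trans hhH1
  have hh0 : 0 < h := by linarith
  have hq1 : 1 ≤ q := Nat.pos_of_ne_zero (NeZero.ne q)
  have hq0 : (0 : ℝ) < q := by exact_mod_cast hq1
  have hφ : (0 : ℝ) < Nat.totient q := by exact_mod_cast Nat.totient_pos.2 hq1
  have hlog : 1 < Real.log h := by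
    rw [Real.lt_log_iff_exp_lt (by linarith)]
    linarith [Real.exp_one_lt_d9]
  have hs0 : (0 : ℝ) < s.card := by exact_mod_cast hs.card_pos
  have hV := hH1 x h q hhH1 hq s y η hf
  have hqh : (q : ℝ) ≤ h := by
    refine hq.trans ?_
    calc h ^ (1 - δ) ≤ h ^ (1 : ℝ) := Real.rpow_le_rpow_of_exponent_le (by linarith) (by linarith)
      _ = h := Real.rpow_one h
  have hbad : ∀ ε : ℝ, 0 < ε → (badCount x h s y (ε * (s.card * h / (Nat.totient q * Real.log h))) : ℝ) ≤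
      9 * η ^ 2 / (δ * ε ^ 2) * Nat.totient q := by
    intro ε hε
    refine (cheb (fun m => classSum x h s y m - expected x h q s.card) _ _ (by positivity) hV).trans (le_of_eq ?_)
    field_simp
  have hmono : ∀ b b' : ℝ, b ≤ b' → badCount x h s y b' ≤ badCount x h s y b := by
    intro b b' hbb
    unfold badCount
    apply card_le_card
    intro m hm
    rw [mem_filter] at hm ⊢
    exact ⟨hm.1, lt_of_le_of_lt hbb hm.2⟩
  refine ⟨hV, hbad, fun Z => ?_, fun hx ε hε => ?_, fun hη2 => ?_⟩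
  · have h1 : ∑ m ∈ Z, classSum x h s y m - Z.card * expected x h q s.card =
        ∑ m ∈ Z, (classSum x h s y m - expected x h q s.card) := by
      rw [sum_sub_distrib, sum_const, nsmul_eq_mul]
    rw [h1]
    apply abs_le_of_sq_le_sq
    · calc (∑ m ∈ Z, (classSum x h s y m - expected x h q s.card)) ^ 2
          ≤ Z.card * ∑ m ∈ Z, (classSum x h s y m - expected x h q s.card) ^ 2 := sq_sum_le_card_mul_sum_sq
        _ ≤ Z.card * (9 * η ^ 2 * s.card ^ 2 * h ^ 2 / (δ * Nat.totient q * Real.log h ^ 2)) := by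
            apply mul_le_mul_of_nonneg_left _ (Nat.cast_nonneg _)
            exact (sum_le_sum_of_subset_of_nonneg (subset_univ Z) fun m _ _ => sq_nonneg _).trans hV
        _ = _ := by
            rw [mul_pow, Real.sq_sqrt (by positivity)]
            field_simp
            ring
    · positivity
  · have h1 : h / (3 * Real.log h) ≤ primesPrimeTo x h q := by
      rw [hx]
      exact hH2 h hhH2 q hq1 hqh
    have h2 : ε / 3 * (s.card * h / (Nat.totient q * Real.log h)) ≤ ε * expected x h q s.card := by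
      unfold expected
      calc ε / 3 * (s.card * h / (Nat.totient q * Real.log h)) = ε * (s.card * (h / (3 * Real.log h)) / Nat.totient q) := by
            field_simp
        _ ≤ ε * (s.card * (primesPrimeTo x h q : ℝ) / Nat.totient q) := by
            apply mul_le_mul_of_nonneg_left _ hε.le
            apply div_le_div_of_nonneg_right _ hφ.le
            exact mul_le_mul_of_nonneg_left h1 hs0.le
    have h3 : (badCount x h s y (ε * expected x h q s.card) : ℝ) ≤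
        badCount x h s y (ε / 3 * (s.card * h / (Nat.totient q * Real.log h))) := by
      exact_mod_cast hmono _ _ h2
    refine h3.trans ((hbad (ε / 3) (by positivity)).trans (le_of_eq ?_))
    field_simp
    ring
  · refine (cheb (fun m => classSum x h s y m - expected x h q s.card) _ _ (by positivity) hV).trans ?_
    have h1 : 81 / δ ≤ h ^ (3 * δ) := hH3 h hhH3
    have h2 : (q : ℝ) ≤ 3 * Real.log h * Nat.totient q := by
      refine (phi_low q hq1).trans ?_
      apply mul_le_mul_of_nonneg_right _ hφ.le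
      have : Real.log q ≤ Real.log h := Real.log_le_log hq0 hqh
      linarith
    have h3 : η ^ 2 ≤ h ^ (2 * δ) * (q / h) := by
      calc η ^ 2 ≤ (h ^ δ * (q / h) ^ (1 / 2 : ℝ)) ^ 2 := pow_le_pow_left₀ hη hη2 2
        _ = h ^ (2 * δ) * (q / h) := by
          rw [mul_pow, ← Real.rpow_natCast (h ^ δ), ← Real.rpow_mul hh0.le, ← Real.rpow_natCast ((q / h) ^ (1 / 2 : ℝ)),
            ← Real.rpow_mul (by positivity), show δ * ((2 : ℕ) : ℝ) = 2 * δ by push_cast; ring,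
            show (1 / 2 : ℝ) * ((2 : ℕ) : ℝ) = 1 by norm_num, Real.rpow_one]
    have h4 : (s.card * (h ^ (1 / 2 + 3 * δ) / (q : ℝ) ^ (1 / 2 : ℝ))) ^ 2 = s.card ^ 2 * (h * h ^ (6 * δ) / q) := by
      rw [mul_pow, div_pow, ← Real.rpow_natCast (h ^ (1 / 2 + 3 * δ)), ← Real.rpow_mul hh0.le,
        ← Real.rpow_natCast ((q : ℝ) ^ (1 / 2 : ℝ)), ← Real.rpow_mul hq0.le]
      have e1 : (1 / 2 + 3 * δ) * ((2 : ℕ) : ℝ) = 1 + 6 * δ := by push_cast; ring
      have e2 : (1 / 2 : ℝ) * ((2 : ℕ) : ℝ) = 1 := by norm_num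
      rw [e1, e2, Real.rpow_one, Real.rpow_add hh0, Real.rpow_one]
    rw [h4]
    obtain ⟨t, ht⟩ : ∃ t, t = h ^ δ := ⟨_, rfl⟩
    have ht0 : 0 < t := by rw [ht]; exact Real.rpow_pos_of_pos hh0 _
    have ht2 : h ^ (2 * δ) = t ^ 2 := by rw [ht, mul_comm, Real.rpow_mul hh0.le]; norm_num
    have ht3 : h ^ (3 * δ) = t ^ 3 := by
      rw [ht, mul_comm, Real.rpow_mul hh0.le]
      norm_cast
    have ht6 : h ^ (6 * δ) = t ^ 6 := by
      rw [ht, mul_comm, Real.rpow_mul hh0.le]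
      norm_cast
    rw [ht3] at h1
    rw [ht2] at h3
    rw [ht6, ← ht]
    rw [div_le_div_iff₀ (by positivity) ht0]
    obtain ⟨L, hL⟩ : ∃ L, L = Real.log h := ⟨_, rfl⟩
    obtain ⟨φ, hφe⟩ : ∃ φ : ℝ, φ = Nat.totient q := ⟨_, rfl⟩
    obtain ⟨S, hS⟩ : ∃ S : ℝ, S = s.card := ⟨_, rfl⟩
    obtain ⟨Q, hQ⟩ : ∃ Q : ℝ, Q = q := ⟨_, rfl⟩
    rw [← hL, ← hφe, ← hS, ← hQ]
    rw [← hL] at hlog h2
    rw [← hφe, ← hQ] at h2
    rw [← hφe] at hφ
    rw [← hS] at hs0
    rw [← hQ] at hq0 h3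
    have h5 : 81 ≤ δ * t ^ 3 := by
      rw [div_le_iff₀ hδ] at h1
      linarith
    have h6 : 9 * η ^ 2 * S ^ 2 * h ^ 2 / (δ * φ * L ^ 2) ≤ 9 * (t ^ 2 * (Q / h)) * S ^ 2 * h ^ 2 / (δ * φ * L ^ 2) := by
      apply div_le_div_of_nonneg_right _ (by positivity)
      apply mul_le_mul_of_nonneg_right _ (by positivity)
      apply mul_le_mul_of_nonneg_right _ (by positivity)
      exact mul_le_mul_of_nonneg_left h3 (by norm_num)
    calc 9 * η ^ 2 * S ^ 2 * h ^ 2 / (δ * φ * L ^ 2) * t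
        ≤ 9 * (t ^ 2 * (Q / h)) * S ^ 2 * h ^ 2 / (δ * φ * L ^ 2) * t := mul_le_mul_of_nonneg_right h6 ht0.le
      _ = 9 * t ^ 3 * S ^ 2 * h / (δ * φ * L ^ 2) * Q := by
          field_simp
      _ ≤ 9 * t ^ 3 * S ^ 2 * h / (δ * φ * L ^ 2) * ((3 * L * φ) ^ 2 / Q) := by
          apply mul_le_mul_of_nonneg_left _ (by positivity)
          rw [le_div_iff₀ hq0, pow_two]
          exact mul_self_le_mul_self hq0.le h2
      _ = 81 * (t ^ 3 * S ^ 2 * h * φ / (δ * Q)) := by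
          field_simp
          ring
      _ ≤ δ * t ^ 3 * (t ^ 3 * S ^ 2 * h * φ / (δ * Q)) := mul_le_mul_of_nonneg_right h5 (by positivity)
      _ = φ * (S ^ 2 * (h * t ^ 6 / Q)) := by
          field_simp

end Run7.h337.MC
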