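import Mathlib
import Pool.Agent.Run7.h337.MC.Main
import Pool.Agent.N647.BU.Core

/-!
# Primes in almost all dilates of one short arithmetic progression of residue classes (helper337)
-/

set_option autoImplicit false

namespace Run7.h337.MC

open Finset Filter
open Pool.Agent.N647.BU (sS burc)

lemma ap_char {q : ℕ} (hq : q.Prime) (χ : DirichletCharacter ℂ q) (a d : ZMod q) (hd : d ≠ 0) (L : ℕ) :
    ‖∑ j ∈ Icc 1 L, χ (a + j * d)‖ = ‖sS q χ (a * d⁻¹) L‖ := by
  haveI := Fact.mk hq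
  have h1 : ∑ j ∈ Icc 1 L, χ (a + j * d) = χ d * sS q χ (a * d⁻¹) L := by
    unfold sS
    rw [mul_sum]
    refine sum_congr rfl fun j _ => ?_
    rw [← map_mul]
    congr 1
    field_simp
  have h2 : ‖χ d‖ = 1 := by
    have h3 : IsUnit d := IsUnit.mk0 d hd
    obtain ⟨u, hu⟩ := h3
    rw [← hu]
    exact DirichletCharacter.unit_norm_eq_one χ u
  rw [h1, norm_mul, h2, one_mul]

lemma primesIn_zero (x h : ℝ) (q : ℕ) (hq : q.Prime) : primesIn x h q 0 ≤ 1 := by
  unfold primesIn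
  rw [← Set.ncard_singleton q]
  apply Set.ncard_le_ncard _ (Set.finite_singleton q)
  rintro p ⟨hp, _, _, h1⟩
  rw [ZMod.natCast_eq_zero_iff] at h1
  exact ((Nat.prime_dvd_prime_iff_eq hq hp).1 h1).symm

/-- The number of the units m modulo q for which the number of the pairs of a prime p in (x - h, x] and 1 <= j <= L with
p = m (a + j d) modulo q differs from L W / (q - 1) by more than b, W the number of primes in (x - h, x] not dividing q. -/
noncomputable def badDilates (x h : ℝ) (q : ℕ) [NeZero q] (a d : ZMod q) (L : ℕ) (b : ℝ) : ℕ :=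
  open Classical in (univ.filter fun m : (ZMod q)ˣ =>
    b < |∑ j ∈ Icc 1 L, (primesIn x h q (m * (a + j * d)) : ℝ) - L * primesPrimeTo x h q / (q - 1 : ℝ)|).card

theorem ap_primes (δ e : ℝ) (hδ : 0 < δ) (hδ1 : δ < 1) (he : 0 < e) : ∃ c : ℝ, 0 < c ∧ ∃ q₀ : ℕ, ∀ q : ℕ, q₀ ≤ q →
    q.Prime → ∀ [NeZero q] (x h : ℝ), 0 ≤ h → (q : ℝ) ≤ h ^ (1 - δ) → ∀ (a d : ZMod q) (L : ℕ), d ≠ 0 →
    (q : ℝ) ^ (1 / 4 + e) ≤ L → L ≤ q →
    (badDilates x h q a d L (L * h / ((q : ℝ) ^ (1 + c) * Real.log h)) : ℝ) ≤ (q : ℝ) ^ (1 - c) := by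
  classical
  obtain ⟨c₀, hc₀, hb⟩ := burc e he
  obtain ⟨H₁, hH13, hH1⟩ := interval_var δ hδ hδ1
  obtain ⟨Z₂, hZ23, hZ2⟩ := Pool.Agent.H617R3.BT.bt 1 one_pos
  obtain ⟨c, hc⟩ : ∃ c, c = min (c₀ / 2) (1 / 16) := ⟨_, rfl⟩
  have hc0 : 0 < c := by rw [hc]; positivity
  have hc1 : c ≤ c₀ / 2 := by rw [hc]; exact min_le_left _ _
  have hc2 : c ≤ 1 / 16 := by rw [hc]; exact min_le_right _ _
  have tc : Tendsto (fun q : ℕ => (q : ℝ)) atTop atTop := tendsto_natCast_atTop_atTop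
  have hlogδ : ∀ᶠ x : ℝ in atTop, Real.log x ≤ x ^ δ := by
    filter_upwards [(isLittleO_log_rpow_atTop hδ).bound one_pos, eventually_ge_atTop 1] with x hx hx1
    rw [one_mul, Real.norm_of_nonneg (Real.log_nonneg hx1), Real.norm_of_nonneg (Real.rpow_nonneg (by linarith) _)] at hx
    exact hx
  obtain ⟨H₃, hH3⟩ := eventually_atTop.1 hlogδ
  obtain ⟨q₀, hq₀⟩ := eventually_atTop.1 (hb.and ((tc.eventually ((tendsto_rpow_atTop (show 0 < c₀ / 2 by linarith)).eventually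
    (eventually_ge_atTop (72 / δ)))).and ((tc.eventually ((tendsto_rpow_atTop (show (0 : ℝ) < 3 / 16 by norm_num)).eventually
    (eventually_ge_atTop 16))).and (tc.eventually (eventually_ge_atTop (max (max H₁ Z₂) (max H₃ 3)))))))
  refine ⟨c, hc0, q₀, fun q hqq hqp _ x h hhn hqh a d L hd hL hLq => ?_⟩
  haveI := Fact.mk hqp
  obtain ⟨hb1, hb2, hb3, hb4⟩ := hq₀ q hqq
  have hqH1 : H₁ ≤ (q : ℝ) := ((le_max_left _ _).trans (le_max_left _ _)).trans hb4
  have hqZ2 : Z₂ ≤ (q : ℝ) := ((le_max_right _ _).trans (le_max_left _ _)).trans hb4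
  have hqH3 : H₃ ≤ (q : ℝ) := ((le_max_left _ _).trans (le_max_right _ _)).trans hb4
  have hq3 : 3 ≤ (q : ℝ) := ((le_max_right _ _).trans (le_max_right _ _)).trans hb4
  have hq0 : (0 : ℝ) < q := by linarith
  have hh1 : 1 ≤ h := by
    by_contra hcon
    push Not at hcon
    have : h ^ (1 - δ) ≤ 1 := Real.rpow_le_one hhn hcon.le (by linarith)
    linarith
  have hqh' : (q : ℝ) ≤ h := by
    refine hqh.trans ?_
    calc h ^ (1 - δ) ≤ h ^ (1 : ℝ) := Real.rpow_le_rpow_of_exponent_le hh1 (by linarith)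
      _ = h := Real.rpow_one h
  have hh0 : 0 < h := by linarith
  have hlog : 1 < Real.log h := by
    rw [Real.lt_log_iff_exp_lt (by linarith)]
    linarith [Real.exp_one_lt_d9]
  have hφ : (Nat.totient q : ℝ) = q - 1 := by
    rw [Nat.totient_prime hqp, Nat.cast_sub hqp.one_le, Nat.cast_one]
  -- the family
  obtain ⟨s, hs⟩ : ∃ s : Finset ℕ, s = (Icc 1 L).filter fun j : ℕ => a + (j : ZMod q) * d ≠ 0 := ⟨_, rfl⟩
  obtain ⟨y, hy⟩ : ∃ y : ℕ → (ZMod q)ˣ, ∀ j ∈ s, (y j : ZMod q) = a + (j : ZMod q) * d := by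
    refine ⟨fun j => if hj : a + (j : ZMod q) * d ≠ 0 then (IsUnit.mk0 _ hj).unit else 1, fun j hj => ?_⟩
    rw [hs, mem_filter] at hj
    simp only [dif_pos hj.2]
    rfl
  obtain ⟨z, hz⟩ : ∃ z : Finset ℕ, z = (Icc 1 L).filter fun j : ℕ => ¬ (a + (j : ZMod q) * d ≠ 0) := ⟨_, rfl⟩
  have hz1 : z.card ≤ 1 := by
    rw [card_le_one]
    intro i hi j hj
    rw [hz, mem_filter, mem_Icc, not_not] at hi hj
    have h1 : ((i : ZMod q) - j) * d = 0 := by
      calc ((i : ZMod q) - j) * d = (a + i * d) - (a + j * d) := by ring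
        _ = 0 := by rw [hi.2, hj.2, sub_self]
    have h2 : (i : ZMod q) = j := by
      rcases mul_eq_zero.1 h1 with h3 | h3
      · exact sub_eq_zero.1 h3
      · exact absurd h3 hd
    rw [ZMod.natCast_eq_natCast_iff'] at h2
    have e1 := hi.1
    have e2 := hj.1
    rcases Nat.lt_or_ge i q with h3 | h3
    · rw [Nat.mod_eq_of_lt h3] at h2
      rcases Nat.lt_or_ge j q with h4 | h4
      · rw [Nat.mod_eq_of_lt h4] at h2
        exact h2
      · have : j = q := by omega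
        rw [this, Nat.mod_self] at h2
        omega
    · have h5 : i = q := by omega
      rw [h5, Nat.mod_self] at h2
      rcases Nat.lt_or_ge j q with h4 | h4
      · rw [Nat.mod_eq_of_lt h4] at h2
        omega
      · omega
  have hsz : s.card + z.card = L := by
    rw [hs, hz]
    have := card_filter_add_card_filter_not (s := Icc 1 L) (fun j : ℕ => a + (j : ZMod q) * d ≠ 0)
    rw [this, Nat.card_Icc]
    omega
  have hLpos : (16 : ℝ) ≤ (q : ℝ) ^ (-c) * L := by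
    calc (16 : ℝ) ≤ (q : ℝ) ^ (3 / 16 : ℝ) := hb3
      _ ≤ (q : ℝ) ^ (-c + (1 / 4 + e)) := Real.rpow_le_rpow_of_exponent_le (by linarith) (by linarith)
      _ = (q : ℝ) ^ (-c) * (q : ℝ) ^ (1 / 4 + e) := Real.rpow_add hq0 _ _
      _ ≤ (q : ℝ) ^ (-c) * L := mul_le_mul_of_nonneg_left hL (Real.rpow_nonneg hq0.le _)
  have hqc1 : (q : ℝ) ^ (-c) ≤ 1 := Real.rpow_le_one_of_one_le_of_nonpos (by linarith) (by linarith)
  have hL0 : (0 : ℝ) ≤ L := Nat.cast_nonneg L
  have hL16 : (16 : ℝ) ≤ L := by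
    calc (16 : ℝ) ≤ (q : ℝ) ^ (-c) * L := hLpos
      _ ≤ 1 * L := mul_le_mul_of_nonneg_right hqc1 hL0
      _ = L := one_mul _
  have hLn : 16 ≤ L := by exact_mod_cast hL16
  have hs0 : (0 : ℝ) < s.card := by
    have : 0 < s.card := by omega
    exact_mod_cast this
  have hflat : MulFlat q ((q : ℝ) ^ (-c₀) * L / s.card) s y := by
    intro χ hχ
    have h1 := hb1 hqp χ hχ (a * d⁻¹) L hL
    rw [← ap_char hqp χ a d hd L] at h1
    have h2 : ∑ i ∈ s, χ (y i : ZMod q) = ∑ j ∈ Icc 1 L, χ (a + j * d) := by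
      rw [hs, sum_filter]
      refine sum_congr rfl fun j hj => ?_
      split_ifs with h3
      · rw [hy j]
        rw [hs, mem_filter]
        exact ⟨hj, h3⟩
      · push Not at h3
        rw [h3]
        exact (MulChar.map_zero χ).symm
    rw [h2]
    refine h1.trans (le_of_eq ?_)
    field_simp
  have hV := hH1 x h q (hqH1.trans hqh') hqh s y _ hflat
  obtain ⟨W, hW⟩ : ∃ W : ℝ, W = primesPrimeTo x h q := ⟨_, rfl⟩
  have hW0 : 0 ≤ W := by rw [hW]; exact Nat.cast_nonneg _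
  have hW3 : W ≤ 3 * h / Real.log h := by
    have h5 := hZ2 1 0 x h le_rfl (by rw [Nat.cast_one, div_one]; linarith)
    rw [Nat.totient_one, Nat.cast_one, div_one, one_mul] at h5
    have h6 : (primesPrimeTo x h q : ℝ) ≤ Pool.Agent.H617R3.BT.cnt x h 1 0 := by exact_mod_cast prime_to_le x h q
    rw [hW]
    refine h6.trans (h5.trans (le_of_eq ?_))
    norm_num
  have hlogq : Real.log h ≤ h / q := by
    refine (hH3 h (hqH3.trans hqh')).trans ?_
    rw [le_div_iff₀ hq0]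
    calc h ^ δ * q ≤ h ^ δ * h ^ (1 - δ) := mul_le_mul_of_nonneg_left hqh (Real.rpow_nonneg hh0.le _)
      _ = h := by
        rw [← Real.rpow_add hh0]
        simp
  obtain ⟨b, hbe⟩ : ∃ b : ℝ, b = L * h / ((q : ℝ) ^ (1 + c) * Real.log h) := ⟨_, rfl⟩
  have hqpow : (q : ℝ) ^ (1 + c) = q / (q : ℝ) ^ (-c) := by
    rw [Real.rpow_add hq0, Real.rpow_one, Real.rpow_neg hq0.le, div_inv_eq_mul]
  have hbe2 : b = (q : ℝ) ^ (-c) * L * (h / (q * Real.log h)) := by
    rw [hbe, hqpow]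
    have : (q : ℝ) ^ (-c) ≠ 0 := (Real.rpow_pos_of_pos hq0 _).ne'
    field_simp
  have hu0 : 0 < h / (q * Real.log h) := by positivity
  have hb0 : 0 < b := by
    rw [hbe2]
    apply mul_pos (by linarith) hu0
  -- the error terms
  have hext : ∀ m : (ZMod q)ˣ, |∑ j ∈ Icc 1 L, (primesIn x h q (m * (a + j * d)) : ℝ) - L * W / (q - 1 : ℝ)| ≤
      |classSum x h s y m - expected x h q s.card| + b / 2 := by
    intro m
    have h1 : ∑ j ∈ Icc 1 L, (primesIn x h q (m * (a + j * d)) : ℝ) =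
        classSum x h s y m + z.card * (primesIn x h q 0 : ℝ) := by
      rw [← sum_filter_add_sum_filter_not (Icc 1 L) (fun j : ℕ => a + (j : ZMod q) * d ≠ 0), ← hs, ← hz]
      congr 1
      · unfold classSum
        refine sum_congr rfl fun j hj => ?_
        rw [Units.val_mul, hy j hj]
      · rw [← nsmul_eq_mul, ← sum_const]
        refine sum_congr rfl fun j hj => ?_
        rw [hz, mem_filter, not_not] at hj
        rw [hj.2, mul_zero]
    have h2 : (L : ℝ) = s.card + z.card := by exact_mod_cast hsz.symm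
    have h3 : ∑ j ∈ Icc 1 L, (primesIn x h q (m * (a + j * d)) : ℝ) - L * W / (q - 1 : ℝ) =
        (classSum x h s y m - expected x h q s.card) + (z.card * (primesIn x h q 0 : ℝ) - z.card * W / (q - 1)) := by
      rw [h1, h2, expected, hφ, ← hW]
      ring
    rw [h3]
    refine (abs_add_le _ _).trans ?_
    have hzc : (z.card : ℝ) ≤ 1 := by exact_mod_cast hz1
    have hz0 : (0 : ℝ) ≤ z.card := Nat.cast_nonneg _
    have hp1 : (primesIn x h q 0 : ℝ) ≤ 1 := by exact_mod_cast primesIn_zero x h q hqp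
    have hp0 : (0 : ℝ) ≤ primesIn x h q 0 := Nat.cast_nonneg _
    have hWq : W / (q - 1 : ℝ) ≤ 6 * (h / (q * Real.log h)) := by
      rw [div_le_iff₀ (by linarith)]
      refine hW3.trans ?_
      have h6 : (q : ℝ) ≤ 2 * (q - 1) := by linarith
      calc 3 * h / Real.log h = 3 * (h / (q * Real.log h)) * q := by
            field_simp
        _ ≤ 3 * (h / (q * Real.log h)) * (2 * (q - 1)) := mul_le_mul_of_nonneg_left h6 (by positivity)
        _ = _ := by ring
    have h7 : (1 : ℝ) ≤ h / (q * Real.log h) := by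
      rw [le_div_iff₀ (by positivity), one_mul]
      rw [le_div_iff₀ hq0] at hlogq
      linarith
    have h8 : |(z.card : ℝ) * (primesIn x h q 0 : ℝ) - z.card * W / (q - 1)| ≤ 8 * (h / (q * Real.log h)) := by
      have h9 : (z.card : ℝ) * (primesIn x h q 0 : ℝ) ≤ 1 := by nlinarith
      have h10 : 0 ≤ (z.card : ℝ) * (primesIn x h q 0 : ℝ) := mul_nonneg hz0 hp0
      have h11 : 0 ≤ W / (q - 1 : ℝ) := div_nonneg hW0 (by linarith)
      have h12 : (z.card : ℝ) * W / (q - 1) = z.card * (W / (q - 1)) := by ring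
      have h13 : (z.card : ℝ) * (W / (q - 1)) ≤ 1 * (W / (q - 1)) := mul_le_mul_of_nonneg_right hzc h11
      have h14 : 0 ≤ (z.card : ℝ) * (W / (q - 1)) := mul_nonneg hz0 h11
      rw [h12, abs_le]
      constructor <;> linarith
    have h9 : 8 * (h / (q * Real.log h)) ≤ b / 2 := by
      rw [hbe2]
      have := mul_le_mul_of_nonneg_right hLpos hu0.le
      linarith
    linarith
  have hcount : (badDilates x h q a d L b : ℝ) ≤
      9 * ((q : ℝ) ^ (-c₀) * L / s.card) ^ 2 * s.card ^ 2 * h ^ 2 / (δ * Nat.totient q * Real.log h ^ 2) / (b / 2) ^ 2 := by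
    refine le_trans ?_ (cheb (fun m => classSum x h s y m - expected x h q s.card) (b / 2) _ (by linarith) hV)
    unfold badDilates
    rw [← hW]
    have h1 : (univ.filter fun m : (ZMod q)ˣ => b < |∑ j ∈ Icc 1 L, (primesIn x h q (m * (a + j * d)) : ℝ) -
        L * W / (q - 1 : ℝ)|) ⊆ univ.filter fun m : (ZMod q)ˣ => b / 2 < |classSum x h s y m - expected x h q s.card| := by
      intro m hm
      rw [mem_filter] at hm ⊢
      refine ⟨mem_univ _, ?_⟩
      have := hext m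
      linarith [hm.2]
    exact_mod_cast card_le_card h1
  rw [← hbe]
  refine hcount.trans ?_
  obtain ⟨t, ht⟩ : ∃ t, t = (q : ℝ) ^ (-c) := ⟨_, rfl⟩
  obtain ⟨t₀, ht₀⟩ : ∃ t₀, t₀ = (q : ℝ) ^ (-c₀) := ⟨_, rfl⟩
  have htpos : 0 < t := by rw [ht]; exact Real.rpow_pos_of_pos hq0 _
  have ht0pos : 0 < t₀ := by rw [ht₀]; exact Real.rpow_pos_of_pos hq0 _
  have hq1c : (q : ℝ) ^ (1 - c) = q * t := by
    rw [ht, sub_eq_add_neg, Real.rpow_add hq0, Real.rpow_one]
  -- 72 t0^2 <= delta t^3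
  have hkey : 72 * t₀ ^ 2 ≤ δ * t ^ 3 := by
    have h1 : (q : ℝ) ^ (c₀ / 2) * t₀ ^ 2 ≤ t ^ 3 := by
      rw [ht, ht₀, ← Real.rpow_natCast ((q : ℝ) ^ (-c₀)), ← Real.rpow_mul hq0.le, ← Real.rpow_natCast ((q : ℝ) ^ (-c)),
        ← Real.rpow_mul hq0.le, ← Real.rpow_add hq0]
      apply Real.rpow_le_rpow_of_exponent_le (by linarith)
      push_cast
      linarith
    have h2 : 72 / δ * t₀ ^ 2 ≤ (q : ℝ) ^ (c₀ / 2) * t₀ ^ 2 := mul_le_mul_of_nonneg_right hb2 (by positivity)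
    have h3 : 72 / δ * t₀ ^ 2 ≤ t ^ 3 := h2.trans h1
    calc 72 * t₀ ^ 2 = δ * (72 / δ * t₀ ^ 2) := by field_simp
      _ ≤ δ * t ^ 3 := mul_le_mul_of_nonneg_left h3 hδ.le
  rw [hq1c, hbe2, hφ, ← ht, ← ht₀]
  have hLpos' : (0 : ℝ) < L := by linarith
  have hq10 : (0 : ℝ) < q - 1 := by linarith
  have h6 : (q : ℝ) ≤ 2 * (q - 1) := by linarith
  calc 9 * (t₀ * L / s.card) ^ 2 * s.card ^ 2 * h ^ 2 / (δ * (q - 1) * Real.log h ^ 2) /
        (t * L * (h / (q * Real.log h)) / 2) ^ 2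
      = 36 * t₀ ^ 2 * q / (δ * t ^ 2) * (q / (q - 1)) := by
        field_simp
        ring
    _ ≤ 36 * t₀ ^ 2 * q / (δ * t ^ 2) * 2 := by
        apply mul_le_mul_of_nonneg_left _ (by positivity)
        rw [div_le_iff₀ hq10]
        linarith
    _ = 72 * t₀ ^ 2 * (q / (δ * t ^ 2)) := by ring
    _ ≤ δ * t ^ 3 * (q / (δ * t ^ 2)) := mul_le_mul_of_nonneg_right hkey (by positivity)
    _ = q * t := by
        field_simp

end Run7.h337.MC
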